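import Pool.Agent.Lib.MP_50bb2e_nt.MT.Iface

/-! Board mt_modules, module SV2: the sieve for finite sets of primes. -/

set_option autoImplicit false

open NumberField IsDedekindDomain Filter Topology

namespace Pool.Agent.Lib.MP_50bb2e_nt.MT.H23

open Pool.Agent.Lib.MP_50bb2e_nt.MT

lemma dvd_prod_iff {F : Type} [Field F] [NumberField F] (s : Finset (Pr F)) (v : Pr F) :
    v.asIdeal ∣ ∏ w ∈ s, w.asIdeal ↔ v ∈ s := by
  constructor
  · intro h
    obtain ⟨w, hw, hd⟩ := Prime.exists_mem_finset_dvd v.prime h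
    have hass : Associated v.asIdeal w.asIdeal := v.prime.associated_of_dvd w.prime hd
    have heq : v.asIdeal = w.asIdeal := associated_iff_eq.1 hass
    have : v = w := HeightOneSpectrum.ext heq
    rw [this]; exact hw
  · intro h
    exact Finset.dvd_prod_of_mem _ h

lemma absNorm_prod {F : Type} [Field F] [NumberField F] (s : Finset (Pr F)) :
    Ideal.absNorm (∏ w ∈ s, w.asIdeal) = nrm s := by
  rw [map_prod]; rfl

lemma prod_ne_bot {F : Type} [Field F] [NumberField F] (s : Finset (Pr F)) :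
    (∏ w ∈ s, w.asIdeal) ≠ (⊥ : Ideal (𝓞 F)) := by
  rw [← Ideal.zero_eq_bot]
  exact Finset.prod_ne_zero_iff.2 fun w _ => w.prime.ne_zero

lemma idealsLE_finite {F : Type} [Field F] [NumberField F] (X : ℝ) : (idealsLE F X).Finite := by
  refine (Ideal.finite_setOfPred_absNorm_le (S := 𝓞 F) ⌊X⌋₊).subset ?_
  intro I hI
  exact Nat.le_floor hI.2

theorem sv2 (h1 : SivS) (h2 : PrdS) : Sv2S := by
  intro F _ _ Q hQ B hB R e he
  obtain ⟨r, hr, hlim⟩ := h1 F
  obtain ⟨P, hP, hprod⟩ := h2 F Q hQ B hB R (e / (2 * r)) (by positivity)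
  refine ⟨P, hP, ?_⟩
  have hlt : r * ∏ v ∈ P, (1 - 1 / (nm v : ℝ)) < e := by
    have h3 : r * ∏ v ∈ P, (1 - 1 / (nm v : ℝ)) < r * (e / (2 * r)) :=
      mul_lt_mul_of_pos_left hprod hr
    have h4 : r * (e / (2 * r)) = e / 2 := by field_simp
    linarith
  have hev := (hlim P).eventually (gt_mem_nhds hlt)
  filter_upwards [hev, eventually_gt_atTop (0 : ℝ)] with X hX hX0
  have h5 := (div_lt_iff₀ hX0).1 hX
  refine le_trans ?_ h5.le
  have hfin : ({I : Ideal (𝓞 F) | I ∈ idealsLE F X ∧ ∀ v ∈ P, ¬ v.asIdeal ∣ I}).Finite :=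
    (idealsLE_finite X).subset fun I hI => hI.1
  have hle := Set.ncard_le_ncard_of_injOn
    (s := {s : Finset (Pr F) | (nrm s : ℝ) ≤ X ∧ ∀ v ∈ P, v ∉ s})
    (t := {I : Ideal (𝓞 F) | I ∈ idealsLE F X ∧ ∀ v ∈ P, ¬ v.asIdeal ∣ I})
    (fun s => ∏ w ∈ s, w.asIdeal) (by
      intro s hs
      refine ⟨⟨prod_ne_bot s, ?_⟩, ?_⟩
      · rw [absNorm_prod]; exact hs.1
      · intro v hv hd
        exact hs.2 v hv ((dvd_prod_iff s v).1 hd)) (by
      intro s _ t _ hst
      have hst' : (∏ w ∈ s, w.asIdeal) = ∏ w ∈ t, w.asIdeal := hst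
      ext v
      rw [← dvd_prod_iff s v, ← dvd_prod_iff t v, hst']) hfin
  exact_mod_cast hle

end Pool.Agent.Lib.MP_50bb2e_nt.MT.H23
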